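import Mathlib

/-!
# An isometric 2-colouring of the pairs of reals with only countable homogeneous sets

Well-order a Hamel basis of `ℝ` over `ℚ` and colour a distance `d > 0` by the sign of the
coefficient of `d` at the largest basis element of its support.
-/

open Set

namespace Pool.Agent.Results.MP_a23160_lc.LeadingCoefficient

section

variable {ι : Type} [LinearOrder ι] (b : Module.Basis ι ℚ ℝ)

/-- `i` is the largest index in the support of `d`. -/
def Top (d : ℝ) (i : ι) : Prop := b.repr d i ≠ 0 ∧ ∀ k, i < k → b.repr d k = 0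

lemma exists_top {d : ℝ} (hd : d ≠ 0) : ∃ i, Top b d i := by
  have hne : (b.repr d).support.Nonempty := by
    rw [Finsupp.support_nonempty_iff]
    intro h
    exact hd (b.repr.map_eq_zero_iff.1 h)
  refine ⟨(b.repr d).support.max' hne, Finsupp.mem_support_iff.1 (Finset.max'_mem _ _), ?_⟩
  intro k hk
  by_contra hcon
  exact absurd (Finset.le_max' _ k (Finsupp.mem_support_iff.2 hcon)) (not_le.2 hk)

lemma top_unique {d : ℝ} {i j : ι} (hi : Top b d i) (hj : Top b d j) : i = j := by
  rcases lt_trichotomy i j with h | h | h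
  · exact absurd (hi.2 j h) hj.1
  · exact h
  · exact absurd (hj.2 i h) hi.1

/-- The leading coefficient of `d` is positive. -/
def PosLead (d : ℝ) : Prop := ∃ i, Top b d i ∧ 0 < b.repr d i

lemma top_neg {d : ℝ} {i : ι} (h : Top b d i) : Top b (-d) i := by
  refine ⟨?_, fun k hk => ?_⟩
  · simpa using h.1
  · simpa using h.2 k hk

/-- for `d ≠ 0`, exactly one of `d`, `-d` has positive leading coefficient -/
lemma posLead_neg {d : ℝ} (hd : d ≠ 0) : PosLead b (-d) ↔ ¬ PosLead b d := by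
  obtain ⟨i, hi⟩ := exists_top b hd
  constructor
  · rintro ⟨j, hj, hpos⟩ ⟨k, hk, hpos'⟩
    obtain rfl := top_unique b hk hi
    obtain rfl := top_unique b hj (top_neg b hi)
    simp at hpos
    linarith
  · intro h
    refine ⟨i, top_neg b hi, ?_⟩
    have h1 : ¬ 0 < b.repr d i := fun h' => h ⟨i, hi, h'⟩
    have h2 := hi.1
    have h3 : b.repr d i < 0 := lt_of_le_of_ne (not_lt.1 h1) h2
    simpa using h3

end

/-- A set of reals is countable if it carries a map into a well-order with countable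
initial segments of fibres such that smaller value implies smaller real. -/
lemma countable_of_wo {ι : Type} [LinearOrder ι] [WellFoundedLT ι] (Y : Set ℝ) (t : ℝ → ι)
    (hfib : ∀ x ∈ Y, {x' ∈ Y | t x' ≤ t x}.Countable)
    (hmono : ∀ x ∈ Y, ∀ x' ∈ Y, t x < t x' → x < x') : Y.Countable := by
  classical
  by_cases hmax : ∃ x ∈ Y, ∀ x' ∈ Y, t x' ≤ t x
  · obtain ⟨x, hx, h⟩ := hmax
    refine (hfib x hx).mono ?_
    intro x' hx'
    exact ⟨hx', h x' hx'⟩
  push Not at hmax
  have hV : ∀ v ∈ t '' Y, ∃ x ∈ Y, t x = v := fun v hv => hv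
  choose! r hr1 hr2 using hV
  -- the successor of a value
  have hsucc : ∀ v ∈ t '' Y, ∃ v' ∈ t '' Y, v < v' ∧ ∀ v'' ∈ t '' Y, v < v'' → v' ≤ v'' := by
    rintro v ⟨x, hx, rfl⟩
    obtain ⟨x', hx', h1⟩ := hmax x hx
    obtain ⟨z, ⟨hz, hz'⟩, hmin⟩ := (wellFounded_lt (α := ι)).has_min
      {v' | v' ∈ t '' Y ∧ t x < v'} ⟨t x', ⟨x', hx', rfl⟩, h1⟩
    exact ⟨z, hz, hz', fun v'' hv'' h => not_lt.1 (hmin _ ⟨hv'', h⟩)⟩
  choose! s hs1 hs2 hs3 using hsucc
  have hrm : ∀ v ∈ t '' Y, ∀ v' ∈ t '' Y, v < v' → r v < r v' := by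
    intro v hv v' hv' h
    apply hmono _ (hr1 v hv) _ (hr1 v' hv')
    rw [hr2 v hv, hr2 v' hv']
    exact h
  have hq : ∀ v ∈ t '' Y, ∃ q : ℚ, r v < q ∧ (q : ℝ) < r (s v) := fun v hv =>
    exists_rat_btwn (hrm v hv (s v) (hs1 v hv) (hs2 v hv))
  choose! q hq1 hq2 using hq
  have himg : (t '' Y).Countable := by
    refine Set.countable_iff_exists_injOn.2 ?_
    obtain ⟨enc, henc⟩ := exists_injective_nat ℚ
    refine ⟨fun v => enc (q v), ?_⟩
    intro v hv v' hv' h
    have h' : q v = q v' := henc h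
    have key : ∀ v ∈ t '' Y, ∀ v' ∈ t '' Y, v < v' → (q v : ℝ) < q v' := by
      intro v hv v' hv' hlt
      have h2 := hs3 v hv v' hv' hlt
      have h3 : r (s v) ≤ r v' := by
        rcases h2.lt_or_eq with h5 | h5
        · exact (hrm _ (hs1 v hv) _ hv' h5).le
        · rw [h5]
      have h7 := hq2 _ hv
      have h8 := hq1 _ hv'
      linarith
    by_contra hne
    rcases lt_or_gt_of_ne hne with hlt | hlt
    · have := key v hv v' hv' hlt
      rw [h'] at this
      exact lt_irrefl _ this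
    · have := key v' hv' v hv hlt
      rw [h'] at this
      exact lt_irrefl _ this
  have : Y ⊆ ⋃ v ∈ t '' Y, {x ∈ Y | t x ≤ v} := by
    intro x hx
    simp only [mem_iUnion]
    exact ⟨t x, ⟨x, hx, rfl⟩, hx, le_rfl⟩
  refine (himg.biUnion (fun v hv => ?_)).mono this
  obtain ⟨x, hx, rfl⟩ := hv
  exact hfib x hx

section main

variable {ι : Type} [LinearOrder ι] [WellFoundedLT ι] (b : Module.Basis ι ℚ ℝ)

/-- inside an uncountable set there is a ball in which smaller balls are countable -/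
lemma exists_ball (X : Set ℝ) (hX : ¬ X.Countable) :
    ∃ Y ⊆ X, ¬ Y.Countable ∧ ∃ y ∈ Y, ∀ x ∈ Y, ∀ i, Top b (x - y) i →
      {x' ∈ Y | ∃ j ≤ i, Top b (x' - y) j}.Countable := by
  classical
  by_cases hS : ∃ i : ι, ∃ y ∈ X, ¬ {x ∈ X | x = y ∨ ∃ j ≤ i, Top b (x - y) j}.Countable
  · obtain ⟨i, ⟨y, hy, hunc⟩, hmin⟩ := (wellFounded_lt (α := ι)).has_min
      {i | ∃ y ∈ X, ¬ {x ∈ X | x = y ∨ ∃ j ≤ i, Top b (x - y) j}.Countable} hS
    -- split by the coefficient at `i`
    obtain ⟨q, hq⟩ : ∃ q : ℚ, ¬ {x ∈ X | (x = y ∨ ∃ j ≤ i, Top b (x - y) j) ∧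
        b.repr (x - y) i = q}.Countable := by
      by_contra hcon
      push Not at hcon
      apply hunc
      refine (countable_iUnion hcon).mono ?_
      intro x hx
      rw [mem_iUnion]
      exact ⟨_, hx.1, hx.2, rfl⟩
    set Y : Set ℝ := {x ∈ X | (x = y ∨ ∃ j ≤ i, Top b (x - y) j) ∧ b.repr (x - y) i = q} with hY
    have hYne : Y.Nonempty := by
      by_contra h
      rw [not_nonempty_iff_eq_empty] at h
      rw [h] at hq
      exact hq countable_empty
    obtain ⟨y', hy'⟩ := hYne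
    refine ⟨Y, fun x hx => hx.1, hq, y', hy', ?_⟩
    have hvan : ∀ x ∈ Y, ∀ k, i ≤ k → b.repr (x - y') k = 0 := by
      intro x hx k hk
      have e : x - y' = (x - y) - (y' - y) := by ring
      have hz : ∀ z ∈ Y, ∀ k, i < k → b.repr (z - y) k = 0 := by
        intro z hz k hk
        rcases hz.2.1 with h | ⟨j, hj, h⟩
        · rw [h]; simp
        · exact h.2 k (hj.trans_lt hk)
      rw [e, map_sub, Finsupp.sub_apply]
      rcases hk.eq_or_lt with h | h
      · rw [← h, hx.2.2, hy'.2.2, sub_self]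
      · rw [hz x hx k h, hz y' hy' k h, sub_self]
    intro x hx j hj
    have hji : j < i := by
      by_contra h
      exact hj.1 (hvan x hx j (not_lt.1 h))
    have := hmin j
    by_contra hcon
    refine this ⟨y', hy'.1, fun hc => hcon (hc.mono ?_)⟩ hji
    rintro x' ⟨hx', h⟩
    exact ⟨hx'.1, Or.inr h⟩
  · push Not at hS
    have hXne : X.Nonempty := by
      by_contra h
      rw [not_nonempty_iff_eq_empty] at h
      rw [h] at hX
      exact hX countable_empty
    obtain ⟨y, hy⟩ := hXne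
    refine ⟨X, Subset.rfl, hX, y, hy, ?_⟩
    intro x _ i _
    refine (hS i y hy).mono ?_
    rintro x' ⟨h1, h2⟩
    exact ⟨h1, Or.inr h2⟩

open Classical in
/-- **Core.** -/
lemma core (X : Set ℝ) (c : Prop) (hX : ∀ x ∈ X, ∀ y ∈ X, x < y → (PosLead b (y - x) ↔ c)) :
    X.Countable := by
  by_contra hunc
  obtain ⟨Y, hYX, hY, y, hy, hball⟩ := exists_ball b X hunc
  -- top index of `x - y`
  have htop : ∀ x : ℝ, ∃ i, x ≠ y → Top b (x - y) i := by
    intro x
    by_cases h : x = y
    · obtain ⟨i, -⟩ := exists_top b (one_ne_zero (α := ℝ))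
      exact ⟨i, fun h' => absurd h h'⟩
    · obtain ⟨i, hi⟩ := exists_top b (sub_ne_zero.2 h)
      exact ⟨i, fun _ => hi⟩
  choose t ht using htop
  -- the two sign classes
  set P : Set ℝ := {x ∈ Y | x ≠ y ∧ PosLead b (x - y)} with hP
  set N : Set ℝ := {x ∈ Y | x ≠ y ∧ ¬ PosLead b (x - y)} with hN
  have hlead : ∀ x ∈ Y, x ≠ y → ∀ x' ∈ Y, x' ≠ y → t x < t x' →
      (PosLead b (x' - x) ↔ PosLead b (x' - y)) := by
    intro x hx hxy x' hx' hxy' hlt
    have h1 := ht x hxy
    have h2 := ht x' hxy'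
    have e : x' - x = (x' - y) - (x - y) := by ring
    have h0 : ∀ k, t x < k → b.repr (x' - x) k = b.repr (x' - y) k := by
      intro k hk
      rw [e, map_sub, Finsupp.sub_apply, h1.2 k hk, sub_zero]
    have h3 : Top b (x' - x) (t x') := by
      refine ⟨?_, fun k hk => ?_⟩
      · rw [h0 _ hlt]; exact h2.1
      · rw [h0 _ (hlt.trans hk)]; exact h2.2 k hk
    constructor
    · rintro ⟨i, hi, hpos⟩
      obtain rfl := top_unique b hi h3
      exact ⟨_, h2, by rw [← h0 _ hlt]; exact hpos⟩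
    · rintro ⟨i, hi, hpos⟩
      obtain rfl := top_unique b hi h2
      exact ⟨_, h3, by rw [h0 _ hlt]; exact hpos⟩
  have hfib : ∀ x ∈ Y, x ≠ y → {x' ∈ Y | x' ≠ y ∧ t x' ≤ t x}.Countable := by
    intro x hx hxy
    refine (hball x hx (t x) (ht x hxy)).mono ?_
    rintro x' ⟨hx', hne, hle⟩
    exact ⟨hx', t x', hle, ht x' hne⟩
  -- if `x' - x` has leading sign as prescribed then the real order is determined
  have hord : ∀ x ∈ X, ∀ x' ∈ X, x ≠ x' → ((PosLead b (x' - x) ↔ c) ↔ x < x') := by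
    intro x hx x' hx' hne
    constructor
    · intro h
      rcases lt_or_gt_of_ne hne with h1 | h1
      · exact h1
      · exfalso
        have h2 := hX x' hx' x hx h1
        have h3 := posLead_neg b (sub_ne_zero.2 hne)
        rw [neg_sub] at h3
        tauto
    · intro h
      exact hX x hx x' hx' h
  have hcount : ∀ Z ⊆ Y, (∀ x ∈ Z, x ≠ y) → (∀ s : Prop, (∀ x ∈ Z, (PosLead b (x - y) ↔ s)) →
      Z.Countable) := by
    intro Z hZY hZne s hs
    have hne' : ∀ x ∈ Z, ∀ x' ∈ Z, t x < t x' → x ≠ x' := by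
      intro x _ x' _ h h'
      rw [h'] at h
      exact lt_irrefl _ h
    by_cases hsc : (s ↔ c)
    · refine countable_of_wo Z t (fun x hx => ?_) (fun x hx x' hx' h => ?_)
      · refine (hfib x (hZY hx) (hZne x hx)).mono ?_
        rintro x' ⟨h1, h2⟩
        exact ⟨hZY h1, hZne _ h1, h2⟩
      · refine (hord x (hYX (hZY hx)) x' (hYX (hZY hx')) (hne' x hx x' hx' h)).1 ?_
        rw [hlead x (hZY hx) (hZne x hx) x' (hZY hx') (hZne x' hx') h, hs x' hx']
        exact hsc
    · have hneg : ((fun x => -x) '' Z).Countable := by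
        refine countable_of_wo _ (fun x => t (-x)) ?_ ?_
        · rintro _ ⟨x, hx, rfl⟩
          refine ((hfib x (hZY hx) (hZne x hx)).image (fun x => -x)).mono ?_
          rintro _ ⟨⟨x', hx', rfl⟩, hle⟩
          simp only [neg_neg] at hle
          exact ⟨x', ⟨hZY hx', hZne _ hx', hle⟩, rfl⟩
        · rintro _ ⟨x, hx, rfl⟩ _ ⟨x', hx', rfl⟩ h
          simp only [neg_neg] at h
          have h1 := hord x (hYX (hZY hx)) x' (hYX (hZY hx')) (hne' x hx x' hx' h)
          rw [hlead x (hZY hx) (hZne x hx) x' (hZY hx') (hZne x' hx') h, hs x' hx'] at h1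
          have h2 : ¬ x < x' := fun h' => hsc (h1.2 h')
          have h3 : x' < x := lt_of_le_of_ne (not_lt.1 h2) (fun h' => hne' x hx x' hx' h h'.symm)
          show -x < -x'
          linarith
      have := hneg.image (fun x => -x)
      rw [image_image] at this
      simpa using this
  have hPc : P.Countable := hcount P (fun x hx => hx.1) (fun x hx => hx.2.1) True
    (fun x hx => ⟨fun _ => trivial, fun _ => hx.2.2⟩)
  have hNc : N.Countable := hcount N (fun x hx => hx.1) (fun x hx => hx.2.1) False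
    (fun x hx => ⟨fun h => hx.2.2 h, fun h => h.elim⟩)
  apply hY
  refine ((hPc.union hNc).union (countable_singleton y)).mono ?_
  intro x hx
  by_cases h1 : x = y
  · exact Or.inr h1
  · by_cases h2 : PosLead b (x - y)
    · exact Or.inl (Or.inl ⟨hx, h1, h2⟩)
    · exact Or.inl (Or.inr ⟨hx, h1, h2⟩)

end main

/-- **Theorem.** There is a two-colouring `f` of the positive reals such that every set
`X ⊆ ℝ`, on which `f |x - y|` is the same for all distinct `x, y ∈ X`, is countable. -/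
theorem result : ∃ f : {d : ℝ // 0 < d} → Fin 2, ∀ X : Set ℝ,
    (∃ c : Fin 2, ∀ x ∈ X, ∀ y ∈ X, ∀ h : x ≠ y, f ⟨|x - y|, abs_pos.2 (sub_ne_zero.2 h)⟩ = c) →
      X.Countable := by
  classical
  let b := Module.Basis.ofVectorSpace ℚ ℝ
  obtain ⟨_i, _wf⟩ := exists_wellFoundedLT (Module.Basis.ofVectorSpaceIndex ℚ ℝ)
  refine ⟨fun d => if PosLead b d.1 then 1 else 0, ?_⟩
  rintro X ⟨c, hc⟩
  refine core b X (c = 1) ?_
  intro x hx y hy hxy
  have h := hc y hy x hx hxy.ne'
  have e : |y - x| = y - x := abs_of_pos (by linarith)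
  simp only [e] at h
  rw [← h]
  by_cases h1 : PosLead b (y - x)
  · simp [h1]
  · simp [h1]

end Pool.Agent.Results.MP_a23160_lc.LeadingCoefficient
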